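import Pool.Agent.TH358.GP.Cls

/-!
# The first cohomology of Goncharov's complexes in characteristic `p`

`RationalClass` is the smallest class of fields which contains

* all fields that are unions of finite fields,
* all function fields of retract rational (for instance: of stably rational) varieties over
  infinite unions `k` of finite fields,

and which contains with a field `K` the field `K(x)` of rational functions, all fields `K'` of
characteristic `p` with `K'^p ⊆ K ⊆ K'`, and all fields isomorphic to `K`. It contains
`k(x_1, ..., x_d)` for all algebraic extensions `k` of `F_p`, in particular for finite `k`, and the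
function fields `k(x, y)(f(x,y)^(1/p))` of all Zariski surfaces, many of which are of general type.

For all fields `F` of this class `H^1(Γ(F,n) ⊗ ℚ) = 0` for all `n ≥ 2`, and the torsion elements
of `B_n(F)` are characterized in terms of the group `F^*`.

For every field `K` and every `n ≥ 2` the elements of the kernel of `δ_n` on `ℤ[P^1_{K(x)}]` are
constant modulo `R_n(K(x))`.

The definitions are in `Pool/Agent/H39R2/GonP/Defs.lean`, `Pool/Agent/TH358/GP/Ret.lean`
(`RetractRational`) and `Pool/Agent/TH358/GP/Cls.lean` (`RationalClass`, `H1Zero`,
`TorsionCriterion`, `Rigid`).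
-/

set_option autoImplicit false

namespace Pool.Agent.Results.MP_9c6ec7_al.DegreeOneRationalFields

open GonP Pool.Agent.TH358.GP

theorem result :
    -- the fields of the class: the differentials of all complexes `Γ(F,n) ⊗ ℚ`, `n ≥ 2`, exist and
    -- are unique, `H^1(Γ(F,n) ⊗ ℚ) = 0` for all `n ≥ 2`, and `∑ n_i {x_i}` is a torsion element of
    -- `B_n(F)` if and only if `∑ n_i Ψ(1 - x_i, x_i; x_i, ..., x_i) = 0` for all multilinear maps
    -- `Ψ : (F^*)^n → ℚ` which are alternating in the first two variables
    (∀ (F : Type) [i : Field F], RationalClass F i → H1Zero F ∧ TorsionCriterion F) ∧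
    -- all fields `K`: if `δ_n α = 0` for an element `α(x)` of `ℤ[P^1_{K(x)}]`, `n ≥ 2`, then `α(x)`
    -- and `α(0)` have the same class in `B_n(K(x))`
    ∀ (K : Type) [Field K], Rigid K :=
  ⟨fun F i h => main_class' F h, fun K _ => rigid K⟩

end Pool.Agent.Results.MP_9c6ec7_al.DegreeOneRationalFields
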