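import Pool.Agent.TH358.GP.Fin

/-!
# Goncharov's groups `B_n(F)` and complexes `Γ(F,n)` in characteristic `p`

Let `F` be a field of characteristic `p`. The relation `{x^p}_n = p^n {x}_n` holds in `B_n(F)`
(integrally, for all `n ≥ 1`): the Frobenius endomorphism acts on `B_n(F)` as multiplication by
`p^n`, and on `Γ(F,n) ⊗ ℚ` as multiplication by `p^n`. Consequences:

* `B_n(F)` is uniquely `p`-divisible if `F` is perfect;
* `B_n(F_q)` is killed by `q^n - 1`;
* if `F` is a union of finite fields, every element of `B_n(F)` has finite order prime to `p`, and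
  `Γ(F,n) ⊗ ℚ = 0`;
* if `F'^(p^k) ⊆ F ⊆ F'` (for instance `F'/F` finite and purely inseparable), the kernel and the
  cokernel of `B_n(F) → B_n(F')` are killed by `p^(k n)`, and `Γ(F,n) ⊗ ℚ → Γ(F',n) ⊗ ℚ` is an
  isomorphism of complexes.

The corresponding statements for the weight `n` part of `K_*(F)` are theorems of Quillen, Hiller
and Kratzer. The definitions are in `Pool/Agent/H39R2/GonP/Defs.lean` and
`Pool/Agent/TH358/GP/Defs.lean`.
-/

set_option autoImplicit false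

namespace Pool.Agent.Results.MP_9c6ec7_al.FrobeniusAdams

open GonP Pool.Agent.TH358.GP

theorem result (p : ℕ) [Fact p.Prime] (F : Type) [Field F] [CharP F p] :
    -- `{x^p}_n = p^n {x}_n` in `B_n(F)`, also for `x = ∞`
    (∀ n : ℕ, 1 ≤ n → ∀ x : P1 F,
      toQuo (R n F) (gen (x.map (fun a => a ^ p))) = p ^ n • toQuo (R n F) (gen x)) ∧
    -- the Frobenius endomorphism acts on `B_n(F)` as multiplication by `p^n`
    (∀ n : ℕ, 1 ≤ n → ∀ T : B n F → B n F, InducedB (frobenius F p) n T → ∀ b, T b = p ^ n • b) ∧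
    -- it acts on the terms `(B_m(F) ⊗ Λ^j F^*)_ℚ` (`m ≥ 2`) and `(Λ^j F^*)_ℚ` of `Γ(F,n) ⊗ ℚ` as
    -- multiplication by `p^n`, `n = m + j`, `n = j`
    (∀ (m j : ℕ) (T : TQ F (m + 2) j → TQ F (m + 2) j), Induced (frobenius F p) (m + 2) j T →
      ∀ u, T u = (p : ℚ) ^ (m + 2 + j) • u) ∧
    (∀ (j : ℕ) (T : LQ F j → LQ F j), InducedL (frobenius F p) j T → ∀ u, T u = (p : ℚ) ^ j • u) ∧
    -- perfect fields: `B_n(F)` is uniquely `p`-divisible
    ((∀ x : F, ∃ y : F, y ^ p = x) → ∀ n : ℕ, 1 ≤ n → Function.Bijective (fun b : B n F => p • b)) ∧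
    -- finite fields with `q` elements: `B_n(F)` is killed by `q^n - 1`
    (Finite F → ∀ n : ℕ, 1 ≤ n → ∀ b : B n F, (Nat.card F ^ n - 1) • b = 0) ∧
    -- unions of finite fields: `B_n(F)` is a torsion group without `p`-torsion and all terms of
    -- the complexes `Γ(F,n) ⊗ ℚ` vanish
    ((∀ x : F, ∃ K : Subfield F, Finite K ∧ x ∈ K) →
      (∀ n : ℕ, 1 ≤ n → ∀ b : B n F, ∃ N : ℕ, 0 < N ∧ N.Coprime p ∧ N • b = 0) ∧
      (∀ (m j : ℕ) (u : TQ F (m + 2) j), u = 0) ∧ ∀ (j : ℕ) (u : LQ F (j + 1)), u = 0) ∧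
    -- extensions `F'` of `F` with `F'^(p^k) ⊆ F`
    (∀ (F' : Type) [Field F'] [CharP F' p] (φ : F →+* F') (k : ℕ),
      (∀ y : F', ∃ x : F, φ x = y ^ p ^ k) →
      InducesIso φ ∧ ∀ n : ℕ, 1 ≤ n → ∃ T : B n F → B n F', InducedB φ n T ∧
        (∀ b c, T b = T c → p ^ (k * n) • b = p ^ (k * n) • c) ∧
        ∀ c, ∃ b, T b = p ^ (k * n) • c) := by
  refine ⟨fun n hn x => ?_, fun n hn T hT b => frob_B p n hn T hT b, fun m j T hT u =>
    frob_T p m j T hT u, fun j T hT u => frob_S p j T hT u, fun h n hn => perfect_div p h n hn,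
    fun hF n hn b => finite_kill n hn hF b, fun hF => ⟨fun n hn b => b_kill p hF n hn b,
      fun m j u => tq_kill p hF m j u, fun j u => lq_kill p hF j u⟩,
    fun F' _ _ φ k hk => ⟨inducesIso p φ k hk, fun n hn => inducedB p φ k hk n hn⟩⟩
  have h1 := bG_frob p n hn (toQuo (R n F) (gen x))
  rw [bG_gen] at h1
  exact h1

end Pool.Agent.Results.MP_9c6ec7_al.FrobeniusAdams
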